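import Pool.Agent.helper29.JZ.Spec

/-! # Row TFO of project jz (MP_3221a1_ag) -/

set_option autoImplicit false

open Finset Polynomial Module

namespace Pool.Agent.helper13.JZ

open Pool.Agent.helper29.JZ

theorem jz_TFO : TFO_stmt := by
  intro hCOL hRWF hSWP hTRA hTRB h h' x y M P Q P' Q' a b hx hy hcol hrow hC hC' i j hij
  obtain ⟨-, hct, -, -, -, -, -⟩ := hTRA h h' M
  obtain ⟨hPA, -, -, -, -, -, -, -⟩ := hTRB hTRA h h' M
  have hF := hRWF hCOL h h' x y M P Q a hx hy hcol hC i j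
  have hG := hRWF hCOL h' h y x (tr M) P' Q' b hy hx (fun k => by rw [hct]; exact hrow k) hC' j i
  rw [hPA] at hG
  simp only [hct] at hG
  have hS := hSWP h h' x y M i j
  unfold Theta
  by_cases j0 : j = 0
  · rw [if_pos j0, hF (Or.inl (by omega)), if_pos j0]
  rw [if_neg j0]
  by_cases i0 : i = 0
  · rw [if_pos i0, hS, hG (Or.inl (by omega)), if_pos i0]
  rw [if_neg i0]
  by_cases j1 : j = 1
  · rw [if_pos j1, hF (Or.inl (by omega)), if_neg j0, if_pos j1]
  rw [if_neg j1]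
  by_cases i1 : i = 1
  · rw [if_pos i1, hS, hG (Or.inl (by omega)), if_neg i0, if_pos i1]
  rw [if_neg i1]
  by_cases hh : 2 * h ≤ i + 1 + a
  · rw [if_pos hh, hF (Or.inr hh), if_neg j0, if_neg j1]
  · rw [if_neg hh, hS, hG (Or.inr (by omega)), if_neg i0, if_neg i1]

end Pool.Agent.helper13.JZ
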